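import Mathlib

namespace Pool.Agent.Results.MP_388f8c_an.Gong

open Set Filter Metric BoundedContinuousFunction

/-- a pointed convex cone -/
def IsCone {X : Type} [NormedAddCommGroup X] [NormedSpace ℝ X] (C : Set X) : Prop :=
  C.Nonempty ∧ (∀ x ∈ C, ∀ y ∈ C, x + y ∈ C) ∧ (∀ t : ℝ, 0 ≤ t → ∀ x ∈ C, t • x ∈ C) ∧
    C ∩ -C = {0}

/-- a base of a cone -/
def IsBase {X : Type} [NormedAddCommGroup X] [NormedSpace ℝ X] (C B : Set X) : Prop :=
  B.Nonempty ∧ Convex ℝ B ∧ B ⊆ C ∧ (0 : X) ∉ closure B ∧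
    ∀ c ∈ C, c ≠ 0 → ∃! p : ℝ × X, 0 < p.1 ∧ p.2 ∈ B ∧ c = p.1 • p.2

def S : Submodule ℝ ((ℕ →ᵇ ℝ) × ℝ × ℝ) where
  carrier := {x | ∀ᶠ n : ℕ in atTop, (n + 1) * x.1 n = x.2.2}
  add_mem' := fun {a b} ha hb => by
    filter_upwards [ha, hb] with n h1 h2
    simp [mul_add, h1, h2]
  zero_mem' := by simp
  smul_mem' := fun c a ha => by
    filter_upwards [ha] with n h
    simp [← h, mul_left_comm]

noncomputable def f (N : ℕ) : ℕ →ᵇ ℝ :=
  ofNormedAddCommGroupDiscrete (fun n => 1 / (max n N + 1 : ℝ)) (1 / (N + 1)) fun n => by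
    rw [Real.norm_of_nonneg (by positivity)]
    gcongr
    exact le_max_right _ _

theorem nf (N : ℕ) : ‖f N‖ ≤ 1 / (N + 1) :=
  (norm_le (by positivity)).2 fun n => by
    change ‖1 / (max n N + 1 : ℝ)‖ ≤ _
    rw [Real.norm_of_nonneg (by positivity)]
    gcongr
    exact le_max_right _ _

theorem mem (N : ℕ) (s t : ℝ) : (s • f N, t, s) ∈ S := by
  filter_upwards [eventually_ge_atTop N] with n hn
  change (n + 1 : ℝ) * (s * (1 / (max n N + 1 : ℝ))) = s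
  rw [max_eq_left (by exact_mod_cast hn)]
  field_simp

theorem noBase {X : Type} [NormedAddCommGroup X] [NormedSpace ℝ X] (C : Set X)
    (h : ∀ δ > 0, ∃ u ∈ C, ∃ w ∈ C, 1 ≤ ‖u‖ ∧ 1 ≤ ‖w‖ ∧ ‖u + w‖ < δ) :
    ¬∃ B, IsBase C B ∧ Bornology.IsBounded B := by
  rintro ⟨B, ⟨-, hc, -, h0, hB⟩, hb⟩
  obtain ⟨M, M0, hM⟩ := hb.exists_pos_norm_le
  refine h0 (Metric.mem_closure_iff.2 fun δ hδ => ?_)
  have key : ∀ u ∈ C, 1 ≤ ‖u‖ → ∃ a > 0, ∃ b ∈ B, 1 ≤ a * M ∧ u = a • b := fun u hu n1 => by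
    obtain ⟨⟨a, b⟩, ⟨a0, b0, e⟩, -⟩ := hB u hu (norm_pos_iff.1 (one_pos.trans_le n1))
    refine ⟨a, a0, b, b0, ?_, e⟩
    rw [e, norm_smul, Real.norm_of_nonneg a0.le] at n1
    exact n1.trans (mul_le_mul_of_nonneg_left (hM b b0) a0.le)
  obtain ⟨u, hu, w, hw, u1, w1, uw⟩ := h (δ / M) (div_pos hδ M0)
  obtain ⟨a, a0, b, b0, a1, e⟩ := key u hu u1
  obtain ⟨a', a0', b', b0', a1', e'⟩ := key w hw w1
  refine ⟨_, hc b0 b0' (a := a / (a + a')) (b := a' / (a + a')) (by positivity) (by positivity)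
    (by field_simp), ?_⟩
  rw [div_eq_inv_mul, div_eq_inv_mul, mul_smul, mul_smul, ← smul_add, ← e, ← e', dist_zero_left,
    norm_smul, Real.norm_of_nonneg (by positivity), inv_mul_lt_iff₀ (by positivity)]
  rw [lt_div_iff₀ M0] at uw
  nlinarith

theorem result : ∃ (X : Type) (_ : NormedAddCommGroup X) (_ : NormedSpace ℝ X) (C : Set X),
    IsCone C ∧ IsClosed C ∧
    (∀ ε : ℝ, 0 < ε → ε < 1 →
      (0 : WeakSpace ℝ X) ∉ closure (toWeakSpace ℝ X '' (C \ closedBall 0 ε))) ∧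
    ¬∃ B, IsBase C B ∧ Bornology.IsBounded B := by
  refine ⟨S, inferInstance, inferInstance, {x | ‖x.1.1‖ ≤ x.1.2.1}, ⟨⟨0, by simp⟩,
    fun x hx y hy => (norm_add_le _ _).trans (add_le_add hx hy), fun t ht x hx => ?_, ?_⟩,
    isClosed_le (by fun_prop) (by fun_prop), fun ε h0 _ h => ?_, ?_⟩
  · change ‖t • x.1.1‖ ≤ t * x.1.2.1
    rw [norm_smul, Real.norm_of_nonneg ht]
    exact mul_le_mul_of_nonneg_left hx ht
  · refine Subset.antisymm ?_ (by simp)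
    rintro ⟨⟨a, t, s⟩, hx⟩ ⟨h1 : ‖a‖ ≤ t, h2 : ‖-a‖ ≤ -t⟩
    rw [norm_neg] at h2
    obtain rfl : a = 0 := norm_le_zero_iff.1 (by linarith)
    obtain rfl : t = 0 := by linarith [norm_nonneg (0 : ℕ →ᵇ ℝ)]
    obtain rfl : s = 0 := by simpa using hx.exists.choose_spec.symm
    rfl
  · let p : StrongDual ℝ S := (ContinuousLinearMap.fst ℝ ℝ ℝ).comp
      ((ContinuousLinearMap.snd ℝ _ _).comp S.subtypeL)
    let q : StrongDual ℝ S := (ContinuousLinearMap.snd ℝ ℝ ℝ).comp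
      ((ContinuousLinearMap.snd ℝ _ _).comp S.subtypeL)
    have cp : Continuous fun x : WeakSpace ℝ S => p x := WeakBilin.eval_continuous _ p
    have cq : Continuous fun x : WeakSpace ℝ S => q x := WeakBilin.eval_continuous _ q
    have := closure_minimal (t := {x : WeakSpace ℝ S | ε ≤ max |p x| |q x|}) ?_
      (isClosed_le continuous_const (cp.abs.max cq.abs)) h
    · have e : ε ≤ max |p 0| |q 0| := this
      simp at e
      linarith
    rintro _ ⟨x, ⟨h1, h2⟩, rfl⟩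
    replace h2 : ε < ‖x‖ := not_le.1 fun h => h2 ((mem_closedBall_zero_iff (E := S)).2 h)
    exact h2.le.trans (max_le (h1.trans ((le_abs_self _).trans (le_max_left _ _))) le_rfl)
  · refine noBase _ fun δ hδ => ?_
    obtain ⟨N, hN⟩ := exists_nat_one_div_lt (half_pos hδ)
    have c : ∀ s : ℝ, |s| = 1 → ‖s • f N‖ ≤ 1 / (N + 1) := fun s hs => by
      rw [norm_smul, Real.norm_eq_abs, hs, one_mul]; exact nf N
    have n : ∀ s : ℝ, |s| = 1 → 1 ≤ ‖(s • f N, (1 / (N + 1) : ℝ), s)‖ := fun s hs =>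
      hs.ge.trans ((le_max_right _ _).trans (le_max_right _ _))
    refine ⟨⟨_, mem N 1 (1 / (N + 1))⟩, c 1 abs_one, ⟨_, mem N (-1) (1 / (N + 1))⟩, c _ (by simp),
      n 1 abs_one, n _ (by simp), ?_⟩
    change ‖((1 : ℝ) • f N + (-1 : ℝ) • f N, (1 / (N + 1) + 1 / (N + 1) : ℝ), (1 + -1 : ℝ))‖ < _
    rw [Prod.norm_def, Prod.norm_def, Real.norm_of_nonneg (by positivity)]
    refine max_lt (by rwa [← add_smul, add_neg_cancel, zero_smul, norm_zero]) (max_lt (by linarith) (by simpa using hδ))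

end Pool.Agent.Results.MP_388f8c_an.Gong
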